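import Pool.Agent.Helper22_QC.Naf
import Pool.Agent.Helper44_QC.Comp
import Pool.Agent.Helper44_QC.PartB

/-!
# Diffeomorphic approximation with uniformly bounded dilatation

Let `n ≥ 2`. There is `κ = κ(n) > 0` such that every element of the group of homeomorphisms of the
closed unit ball generated by the `δ`-monotone ones (all `δ > 0`) and those which are `κ`-close to
linear maps of bounded distortion at arbitrarily small hyperbolic scales is, on the open unit
ball, a uniform limit of `C^∞` diffeomorphisms of the open unit ball onto itself which are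
`K`-quasiconformal with one constant `K`.
-/

namespace Pool.Agent.Results.MP_183729_an.MonotoneAffineGroup

open Helper22QC

theorem result (n : ℕ) (hn : 2 ≤ n) : ∃ κ : ℝ, 0 < κ ∧
    ∀ f ∈ Subgroup.closure (Gen n κ), ∃ K : ℝ, Approx K f := by
  obtain ⟨κ, hκ, hN⟩ := naf H44QC.ker H44QC.topM H44QC.detB n
  obtain ⟨G, hG⟩ := H44QC.group n
  refine ⟨κ, hκ, fun f hf => (hG f).1 ?_⟩
  have hle : Subgroup.closure (Gen n κ) ≤ G := by
    rw [Subgroup.closure_le]
    rintro g (⟨δ, hδ, hg⟩ | ⟨H, hg⟩)
    · obtain ⟨K, hK⟩ := mono' n hn δ hδ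
      exact (hG g).2 ⟨K, hK g hg⟩
    · obtain ⟨K, hK⟩ := hN H
      exact (hG g).2 ⟨K, hK g hg⟩
  exact hle hf

end Pool.Agent.Results.MP_183729_an.MonotoneAffineGroup
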